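import Pool.Agent.U685.IN.Stm

/-! Project IX, package PATH2 (helper165): the middle part of a lattice path. -/

set_option autoImplicit false
open Set

namespace Pool.Agent.U165.IX

open Pool.Agent.N662.FP
open Pool.Agent.U874.FP
open U874.FL (Fd)
open Pool.Agent.U685.IN
open Pool.Agent.N896.FM (stp exists_stp)

theorem sc_mem {F : Finset (Sym2 V)} {ε : ℝ} {x : Sym2 V → ℝ} {e : Sym2 V} (h : e ∈ F) :
    sc F ε x e = (1 - ε) * x e := by
  unfold sc
  exact if_pos h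

theorem sc_nonneg {F : Finset (Sym2 V)} {ε : ℝ} {x : Sym2 V → ℝ} (hx : ∀ e, 0 ≤ x e)
    (h1 : ε ≤ 1) (e : Sym2 V) : 0 ≤ sc F ε x e := by
  unfold sc
  beta_reduce
  split_ifs
  · exact mul_nonneg (by linarith) (hx e)
  · exact hx e

theorem sc_le {F : Finset (Sym2 V)} {ε : ℝ} {x : Sym2 V → ℝ} (hx : ∀ e, 0 ≤ x e)
    (h0 : 0 ≤ ε) (e : Sym2 V) : sc F ε x e ≤ x e := by
  unfold sc
  beta_reduce
  split_ifs
  · have := mul_nonneg h0 (hx e)
    linarith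
  · exact le_rfl

theorem ht_step {p q : ℝ} (hpq : p ^ 2 + q ^ 2 = 1) {a b : V}
    (h : |b.1 - a.1| + |b.2 - a.2| = 1) : |ht p q b - ht p q a| ≤ 1 := by
  have hp : |p| ≤ 1 := abs_le_one_iff_mul_self_le_one.2 (by nlinarith [sq_nonneg q])
  have hq : |q| ≤ 1 := abs_le_one_iff_mul_self_le_one.2 (by nlinarith [sq_nonneg p])
  have h' : |(b.1 : ℝ) - a.1| + |(b.2 : ℝ) - a.2| = 1 := by exact_mod_cast h
  have e : ht p q b - ht p q a = p * ((b.1 : ℝ) - a.1) + q * ((b.2 : ℝ) - a.2) := by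
    unfold ht
    ring
  rw [e]
  refine (abs_add_le _ _).trans ?_
  rw [abs_mul, abs_mul]
  have h1 : |p| * |(b.1 : ℝ) - a.1| ≤ 1 * |(b.1 : ℝ) - a.1| :=
    mul_le_mul_of_nonneg_right hp (abs_nonneg _)
  have h2 : |q| * |(b.2 : ℝ) - a.2| ≤ 1 * |(b.2 : ℝ) - a.2| :=
    mul_le_mul_of_nonneg_right hq (abs_nonneg _)
  linarith

theorem edge_mem {S : Finset V} {a b : V} (ha : a ∈ S) (h : |b.1 - a.1| + |b.2 - a.2| = 1) :
    s(a, b) ∈ Fd S := by
  obtain ⟨k, hk⟩ := exists_stp (b.1 - a.1) (b.2 - a.2) h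
  have hb : a + stp k = b := by
    rw [hk]
    ext <;> simp
  rw [← hb]
  exact Finset.mem_image.2 ⟨(a, k), Finset.mem_product.2 ⟨ha, Finset.mem_univ _⟩, rfl⟩

theorem t_PATH2 : Pool.Agent.U685.IN.S_PATH2 := by
  classical
  intro x hx p q hpq v h1 h2 S h1pos h12 hv hConf ε hε0 hε1
  obtain ⟨hne, -, -, -⟩ := cGE x hx 0 v
  have hlt : sInf (PS x 0 v) < D x 0 v + 1 := by
    change D x 0 v < D x 0 v + 1
    linarith
  obtain ⟨s, ⟨n, P, hP0, hPn, hst, hs⟩, hsD⟩ := exists_lt_of_csInf_lt hne hlt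
  have hle : ∑ i ∈ Finset.range n, x s(P i, P (i + 1)) ≤ D x 0 v + 1 := by
    rw [← hs]
    exact hsD.le
  obtain ⟨f, hf⟩ : ∃ f : ℕ → ℝ, ∀ i, f i = ht p q (P i) := ⟨fun i => ht p q (P i), fun _ => rfl⟩
  have f0 : f 0 = 0 := by
    rw [hf, hP0]
    simp [ht]
  have fn : h2 ≤ f n := by
    rw [hf, hPn]
    exact hv
  have fst : ∀ i < n, |f (i + 1) - f i| ≤ 1 := by
    intro i hi
    rw [hf, hf]
    exact ht_step hpq (hst i hi)
  have hex : ∃ i, h2 ≤ f i := ⟨n, fn⟩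
  obtain ⟨j, hj, hjmin⟩ : ∃ j, h2 ≤ f j ∧ ∀ i < j, f i < h2 :=
    ⟨Nat.find hex, Nat.find_spec hex, fun i hi => not_le.1 (Nat.find_min hex hi)⟩
  have hjn : j ≤ n := by
    by_contra hc
    exact absurd fn (not_le.2 (hjmin n (not_le.1 hc)))
  have hj1 : 1 ≤ j := by
    rcases Nat.eq_zero_or_pos j with h | h
    · rw [h, f0] at hj
      linarith
    · exact h
  obtain ⟨b0, rfl⟩ : ∃ b0, j = b0 + 1 := ⟨j - 1, by omega⟩
  have hb0 : f b0 < h2 := hjmin b0 (Nat.lt_succ_self b0)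
  have hb1 : h2 - 1 ≤ f b0 := by
    have := abs_le.1 (fst b0 (by omega))
    linarith [this.2]
  obtain ⟨i0, hi0, hi0b, hi0g⟩ : ∃ i0, f i0 < h1 ∧ i0 ≤ b0 ∧ ∀ i, i0 < i → i ≤ b0 → h1 ≤ f i := by
    refine ⟨Nat.findGreatest (fun i => f i < h1) b0, ?_, Nat.findGreatest_le b0, ?_⟩
    · refine Nat.findGreatest_spec (P := fun i => f i < h1) (Nat.zero_le b0) ?_
      rw [f0]
      exact h1pos
    · intro i hi1 hi2
      exact not_lt.1 (Nat.findGreatest_is_greatest hi1 hi2)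
  have hi0lt : i0 < b0 := by
    rcases hi0b.lt_or_eq with h | h
    · exact h
    · rw [h] at hi0
      linarith
  obtain ⟨a0, ha0⟩ : ∃ a0, a0 = i0 + 1 := ⟨_, rfl⟩
  have ha0b : a0 ≤ b0 := by omega
  have hfa1 : h1 ≤ f a0 := hi0g a0 (by omega) ha0b
  have hfa2 : f a0 ≤ h1 + 1 := by
    have := abs_le.1 (fst i0 (by omega))
    rw [ha0]
    linarith [this.2]
  have hS : ∀ i, a0 ≤ i → i ≤ b0 → P i ∈ S := by
    intro i hi1 hi2
    refine hConf n P hP0 hPn hst hle i (by omega) ?_ ?_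
    · rw [← hf]
      exact hi0g i (by omega) hi2
    · rw [← hf]
      exact (hjmin i (by omega)).le
  refine ⟨P a0, hS a0 le_rfl ha0b, P b0, hS b0 ha0b le_rfl, ?_, ?_, ?_, ?_, ?_⟩
  · rw [← hf]; exact hfa1
  · rw [← hf]; exact hfa2
  · rw [← hf]; exact hb1
  · rw [← hf]; exact hb0.le
  -- the modified path
  have hsc := cGE (sc (Fd S) ε x) (sc_nonneg hx hε1) 0 v
  have k1 : D (sc (Fd S) ε x) 0 v ≤ ∑ i ∈ Finset.range n, sc (Fd S) ε x s(P i, P (i + 1)) :=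
    csInf_le hsc.2.1 ⟨n, P, hP0, hPn, hst, rfl⟩
  have k2 : ∑ i ∈ Finset.range n, sc (Fd S) ε x s(P i, P (i + 1)) ≤
      ∑ i ∈ Finset.range n, (x s(P i, P (i + 1)) -
        if i ∈ Finset.Ico a0 b0 then ε * x s(P i, P (i + 1)) else 0) := by
    refine Finset.sum_le_sum fun i hi => ?_
    have hin : i < n := Finset.mem_range.1 hi
    split_ifs with h
    · rw [Finset.mem_Ico] at h
      rw [sc_mem (edge_mem (hS i h.1 h.2.le) (hst i hin))]
      exact le_of_eq (by ring)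
    · rw [sub_zero]
      exact sc_le hx hε0 _
  have k3 : ∑ i ∈ Finset.range n, (x s(P i, P (i + 1)) -
        if i ∈ Finset.Ico a0 b0 then ε * x s(P i, P (i + 1)) else 0) =
      ∑ i ∈ Finset.range n, x s(P i, P (i + 1)) -
        ε * ∑ i ∈ Finset.Ico a0 b0, x s(P i, P (i + 1)) := by
    rw [Finset.sum_sub_distrib, ← Finset.sum_filter, Finset.mul_sum]
    congr 2
    ext i
    rw [Finset.mem_filter, Finset.mem_range, Finset.mem_Ico]
    omega
  have k4 : D x (P a0) (P b0) ≤ ∑ i ∈ Finset.Ico a0 b0, x s(P i, P (i + 1)) := by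
    rw [Finset.sum_Ico_eq_sum_range]
    refine csInf_le (cGE x hx (P a0) (P b0)).2.1 ⟨b0 - a0, fun k => P (a0 + k), rfl, ?_, ?_, rfl⟩
    · change P (a0 + (b0 - a0)) = P b0
      congr 1
      omega
    · intro i hi
      exact hst (a0 + i) (by omega)
  have k5 := mul_le_mul_of_nonneg_left k4 hε0
  linarith

end Pool.Agent.U165.IX
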